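import Mathlib

/-!
MP_add94d_co: definitions and the first three lemmas (process, Erdős–Rado step, supersaturation)
of the lower bound for the 4-uniform Erdős–Rogers function.
-/

open Finset

namespace MPadd94d

/-- all `r`-subsets of `Q` are edges -/
def Clique {V : Type*} (r : ℕ) (H : Finset V → Prop) (Q : Finset V) : Prop :=
  ∀ e ⊆ Q, e.card = r → H e

/-- `A` contains no complete set with `t` vertices -/
def KFree {V : Type*} (r t : ℕ) (H : Finset V → Prop) (A : Finset V) : Prop :=
  ∀ Q ⊆ A, Q.card = t → ¬ Clique r H Q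

/-- no edge inside `A` -/
def Indep {V : Type*} (r : ℕ) (H : Finset V → Prop) (A : Finset V) : Prop :=
  ∀ e ⊆ A, e.card = r → ¬ H e

/-- `T = (4l)^{l(m+1)}` -/
def TT (l m : ℕ) : ℕ := (4 * l) ^ (l * (m + 1))

/-- `R = 2^{T^3+2T}` -/
def RR (l m : ℕ) : ℕ := 2 ^ ((TT l m) ^ 3 + 2 * TT l m)

/-- the size needed for depth `j` -/
def rho (l m : ℕ) : ℕ → ℕ
  | 0 => 1
  | (j + 1) => (2 * (RR l m) ^ l * rho l m j) ^ ((2 * l ^ j + 4) ^ l)

/-- nested sets -/
def NZ {V : Type*} [DecidableEq V] (H : Finset V → Prop) (l : ℕ) : ℕ → Finset V → Prop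
  | 0, A => A.card = 1
  | (j + 1), A => ∃ τ : Fin l → Finset V, A = univ.biUnion τ ∧
      (∀ a b, a ≠ b → Disjoint (τ a) (τ b)) ∧ (∀ a, NZ H l j (τ a)) ∧
      ∀ x : Fin l → V, (∀ a, x a ∈ τ a) → ∀ a b c d : Fin l,
        a ≠ b → a ≠ c → a ≠ d → b ≠ c → b ≠ d → c ≠ d → ¬ H {x a, x b, x c, x d}

theorem process_aux {V : Type*} [DecidableEq V] (G : Finset V → Prop) (l m : ℕ) (hl : 1 ≤ l)
    (W : Finset V) : ∀ (n : ℕ) (L : Finset V) (N : V → Finset V) (W' : Finset V),
    L ⊆ W → (∀ v ∈ L, N v ⊆ W) → W' ⊆ W →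
    (∀ v ∈ L, ∀ v' ∈ L, v ≠ v' → ∀ w ∈ W', ¬ G {v, v', w}) →
    Indep 3 G L →
    (∀ v ∈ L, ∀ u ∈ N v, ∀ w ∈ W', G {v, u, w}) →
    (∀ v ∈ L, ∀ u ∈ N v, ∀ u' ∈ N v, u ≠ u' → G {v, u, u'}) →
    (∀ v ∈ L, v ∉ N v) →
    Disjoint W' L → (∀ v ∈ L, Disjoint W' (N v)) →
    L.card ≤ l → (∀ v ∈ L, (N v).card ≤ m) →
    (l - L.card) * (m + 1) + ∑ v ∈ L, (m - (N v).card) ≤ n →
    (4 * l) ^ n ≤ W'.card →
    (∃ A ⊆ W, A.card = l ∧ Indep 3 G A) ∨
    (∃ v ∈ W, ∃ A ⊆ W, A.card = m ∧ v ∉ A ∧ ∀ x ∈ A, ∀ y ∈ A, x ≠ y → G {v, x, y}) := by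
  intro n
  induction n with
  | zero =>
    intro L N W' hLW hNW hW'W hI1 hI1' hI2 hI2' hvN hdis hdisN hLc hNc hΦ hW'
    left
    refine ⟨L, hLW, ?_, hI1'⟩
    have h1 : (l - L.card) * (m + 1) = 0 := by omega
    rcases Nat.mul_eq_zero.mp h1 with h | h
    · omega
    · omega
  | succ n ih =>
    intro L N W' hLW hNW hW'W hI1 hI1' hI2 hI2' hvN hdis hdisN hLc hNc hΦ hW'
    classical
    by_cases hLl : L.card = l
    · exact Or.inl ⟨L, hLW, hLl, hI1'⟩
    by_cases hNm : ∃ v ∈ L, (N v).card = m
    · obtain ⟨v, hv, hvm⟩ := hNm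
      exact Or.inr ⟨v, hLW hv, N v, hNW v hv, hvm, hvN v hv, hI2' v hv⟩
    push Not at hNm
    have h4l : 1 ≤ 4 * l := by omega
    have hpos : 1 ≤ (4 * l) ^ n := Nat.one_le_pow _ _ h4l
    have hW'pos : 0 < W'.card := lt_of_lt_of_le (pow_pos (by omega) _) hW'
    obtain ⟨u, hu⟩ := Finset.card_pos.mp hW'pos
    have huL : u ∉ L := fun h => Finset.disjoint_left.mp hdis hu h
    have hcard0 : (W'.erase u).card + 1 = W'.card := Finset.card_erase_add_one hu
    by_cases hX : ∃ v ∈ L, (4 * l) ^ n ≤ ((W'.erase u).filter (fun w => G {v, u, w})).card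
    · obtain ⟨v, hv, hXv⟩ := hX
      have hsub : (W'.erase u).filter (fun w => G {v, u, w}) ⊆ W' :=
        (Finset.filter_subset _ _).trans (Finset.erase_subset _ _)
      have hune : ∀ w ∈ (W'.erase u).filter (fun w => G {v, u, w}), w ≠ u := fun w hw =>
        Finset.ne_of_mem_erase (Finset.mem_filter.mp hw).1
      have hN'v : (Function.update N v (insert u (N v))) v = insert u (N v) :=
        Function.update_self _ _ _
      have hN'o : ∀ w, w ≠ v → (Function.update N v (insert u (N v))) w = N w := fun w hw =>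
        Function.update_of_ne hw _ _
      have huN : u ∉ N v := fun h => Finset.disjoint_left.mp (hdisN v hv) hu h
      have hcv : (insert u (N v)).card = (N v).card + 1 := Finset.card_insert_of_notMem huN
      have hltv : (N v).card < m := lt_of_le_of_ne (hNc v hv) (hNm v hv)
      refine ih L (Function.update N v (insert u (N v)))
        ((W'.erase u).filter (fun w => G {v, u, w})) hLW ?_ (hsub.trans hW'W) ?_ hI1' ?_ ?_ ?_ ?_ ?_
        hLc ?_ ?_ hXv
      · intro w hw
        by_cases hwv : w = v
        · subst hwv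
          rw [hN'v]
          exact Finset.insert_subset (hW'W hu) (hNW w hw)
        · rw [hN'o w hwv]; exact hNW w hw
      · intro a ha b hb hab w hw
        exact hI1 a ha b hb hab w (hsub hw)
      · intro a ha b hb w hw
        by_cases hav : a = v
        · subst hav
          rw [hN'v] at hb
          rcases Finset.mem_insert.mp hb with hb | hb
          · subst hb; exact (Finset.mem_filter.mp hw).2
          · exact hI2 a ha b hb w (hsub hw)
        · rw [hN'o a hav] at hb
          exact hI2 a ha b hb w (hsub hw)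
      · intro a ha b hb c hc hbc
        by_cases hav : a = v
        · subst hav
          rw [hN'v] at hb hc
          rcases Finset.mem_insert.mp hb with hb1 | hb1
          · rcases Finset.mem_insert.mp hc with hc1 | hc1
            · exact absurd (hb1.trans hc1.symm) hbc
            · have := hI2 a ha c hc1 u hu
              rw [hb1]
              rwa [Finset.pair_comm c u] at this
          · rcases Finset.mem_insert.mp hc with hc1 | hc1
            · rw [hc1]
              exact hI2 a ha b hb1 u hu
            · exact hI2' a ha b hb1 c hc1 hbc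
        · rw [hN'o a hav] at hb hc
          exact hI2' a ha b hb c hc hbc
      · intro a ha
        by_cases hav : a = v
        · subst hav
          rw [hN'v]
          intro h
          rcases Finset.mem_insert.mp h with h | h
          · exact huL (h ▸ ha)
          · exact hvN a ha h
        · rw [hN'o a hav]; exact hvN a ha
      · exact Finset.disjoint_of_subset_left hsub hdis
      · intro a ha
        by_cases hav : a = v
        · subst hav
          rw [hN'v, Finset.disjoint_insert_right]
          exact ⟨fun h => hune u h rfl, Finset.disjoint_of_subset_left hsub (hdisN a ha)⟩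
        · rw [hN'o a hav]
          exact Finset.disjoint_of_subset_left hsub (hdisN a ha)
      · intro a ha
        by_cases hav : a = v
        · subst hav
          rw [hN'v, hcv]; omega
        · rw [hN'o a hav]; exact hNc a ha
      · have hs1 := Finset.add_sum_erase L (fun w => m - (N w).card) hv
        have hs2 := Finset.add_sum_erase L
          (fun w => m - ((Function.update N v (insert u (N v))) w).card) hv
        have hs3 : ∑ w ∈ L.erase v, (m - ((Function.update N v (insert u (N v))) w).card) =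
            ∑ w ∈ L.erase v, (m - (N w).card) := by
          refine Finset.sum_congr rfl fun w hw => ?_
          rw [hN'o w (Finset.ne_of_mem_erase hw)]
        simp only [hN'v, hcv] at hs2
        rw [hs3] at hs2
        rw [← hs2]
        rw [← hs1] at hΦ
        omega
    · push Not at hX
      set U : Finset V := L.biUnion (fun v => (W'.erase u).filter (fun w => G {v, u, w})) with hU
      have hUc : U.card ≤ L.card * ((4 * l) ^ n) := by
        refine Finset.card_biUnion_le_card_mul _ _ _ fun v hv => (hX v hv).le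
      have hLlt : L.card < l := lt_of_le_of_ne hLc hLl
      have hcard1 : (4 * l) ^ n ≤ ((W'.erase u) \ U).card := by
        have h1 : (W'.erase u).card - U.card ≤ ((W'.erase u) \ U).card :=
          Finset.le_card_sdiff _ _
        have h2 : (4 * l) ^ (n + 1) = 4 * l * (4 * l) ^ n := by rw [pow_succ]; ring
        have h3 : (L.card + 1) * (4 * l) ^ n ≤ l * (4 * l) ^ n := Nat.mul_le_mul_right _ hLlt
        have h4 : 4 * l * (4 * l) ^ n = 4 * (l * (4 * l) ^ n) := by ring
        have h5 : (L.card + 1) * (4 * l) ^ n = L.card * (4 * l) ^ n + (4 * l) ^ n := by ring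
        omega
      have hsub : (W'.erase u) \ U ⊆ W' := Finset.sdiff_subset.trans (Finset.erase_subset _ _)
      have hnG : ∀ v ∈ L, ∀ w ∈ (W'.erase u) \ U, ¬ G {v, u, w} := by
        intro v hv w hw hG
        obtain ⟨hw1, hw2⟩ := Finset.mem_sdiff.mp hw
        exact hw2 (Finset.mem_biUnion.mpr ⟨v, hv, Finset.mem_filter.mpr ⟨hw1, hG⟩⟩)
      have hN'u : (Function.update N u ∅) u = ∅ := Function.update_self _ _ _
      have hN'o : ∀ w, w ≠ u → (Function.update N u ∅) w = N w := fun w hw =>
        Function.update_of_ne hw _ _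
      have hN'L : ∀ w ∈ L, (Function.update N u ∅) w = N w := fun w hw =>
        hN'o w (fun h => huL (h ▸ hw))
      refine ih (insert u L) (Function.update N u ∅) ((W'.erase u) \ U)
        (Finset.insert_subset (hW'W hu) hLW) ?_ (hsub.trans hW'W) ?_ ?_ ?_ ?_ ?_ ?_ ?_ ?_ ?_ ?_ hcard1
      · intro w hw
        rcases Finset.mem_insert.mp hw with hw | hw
        · subst hw; rw [hN'u]; exact Finset.empty_subset _
        · rw [hN'L w hw]; exact hNW w hw
      · intro a ha b hb hab w hw
        rcases Finset.mem_insert.mp ha with ha1 | ha1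
        · rcases Finset.mem_insert.mp hb with hb1 | hb1
          · exact absurd (ha1.trans hb1.symm) hab
          · rw [ha1, Finset.insert_comm]
            exact hnG b hb1 w hw
        · rcases Finset.mem_insert.mp hb with hb1 | hb1
          · rw [hb1]
            exact hnG a ha1 w hw
          · exact hI1 a ha1 b hb1 hab w (hsub hw)
      · intro e he hec
        by_cases hue : u ∈ e
        · have he2 : (e.erase u).card = 2 := by
            rw [Finset.card_erase_of_mem hue, hec]
          obtain ⟨a, b, hab, heq⟩ := Finset.card_eq_two.mp he2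
          have haL : a ∈ L := by
            have h1 : a ∈ e.erase u := by rw [heq]; simp
            have h2 := he (Finset.mem_of_mem_erase h1)
            rcases Finset.mem_insert.mp h2 with h | h
            · exact absurd h (Finset.ne_of_mem_erase h1)
            · exact h
          have hbL : b ∈ L := by
            have h1 : b ∈ e.erase u := by rw [heq]; simp
            have h2 := he (Finset.mem_of_mem_erase h1)
            rcases Finset.mem_insert.mp h2 with h | h
            · exact absurd h (Finset.ne_of_mem_erase h1)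
            · exact h
          have heq2 : e = {a, b, u} := by
            rw [← Finset.insert_erase hue, heq, Finset.insert_comm, Finset.pair_comm u b]
          rw [heq2]
          exact hI1 a haL b hbL hab u hu
        · refine hI1' e (fun x hx => ?_) hec
          rcases Finset.mem_insert.mp (he hx) with h | h
          · exact absurd (h ▸ hx) hue
          · exact h
      · intro a ha b hb w hw
        rcases Finset.mem_insert.mp ha with ha | ha
        · subst ha; rw [hN'u] at hb; simp at hb
        · rw [hN'L a ha] at hb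
          exact hI2 a ha b hb w (hsub hw)
      · intro a ha b hb c hc hbc
        rcases Finset.mem_insert.mp ha with ha | ha
        · subst ha; rw [hN'u] at hb; simp at hb
        · rw [hN'L a ha] at hb hc
          exact hI2' a ha b hb c hc hbc
      · intro a ha
        rcases Finset.mem_insert.mp ha with ha | ha
        · subst ha; rw [hN'u]; simp
        · rw [hN'L a ha]; exact hvN a ha
      · rw [Finset.disjoint_insert_right]
        refine ⟨fun h => ?_, Finset.disjoint_of_subset_left hsub hdis⟩
        exact Finset.notMem_erase u W' (Finset.mem_sdiff.mp h).1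
      · intro a ha
        rcases Finset.mem_insert.mp ha with ha | ha
        · subst ha; rw [hN'u]; simp
        · rw [hN'L a ha]
          exact Finset.disjoint_of_subset_left hsub (hdisN a ha)
      · rw [Finset.card_insert_of_notMem huL]; omega
      · intro a ha
        rcases Finset.mem_insert.mp ha with ha | ha
        · subst ha; rw [hN'u]; simp
        · rw [hN'L a ha]; exact hNc a ha
      · rw [Finset.sum_insert huL, hN'u, Finset.card_empty, Finset.card_insert_of_notMem huL]
        have hs3 : ∑ w ∈ L, (m - ((Function.update N u ∅) w).card) =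
            ∑ w ∈ L, (m - (N w).card) := by
          refine Finset.sum_congr rfl fun w hw => ?_
          rw [hN'L w hw]
        rw [hs3]
        obtain ⟨d, hd⟩ : ∃ d, l - L.card = d + 1 := ⟨l - L.card - 1, by omega⟩
        have hd' : l - (L.card + 1) = d := by omega
        rw [hd] at hΦ
        rw [hd']
        have : (d + 1) * (m + 1) = d * (m + 1) + (m + 1) := by ring
        omega

/-- PIECE P. -/
theorem process {V : Type*} [DecidableEq V] (G : Finset V → Prop) (l m : ℕ) (hl : 1 ≤ l)
    (W : Finset V) (hW : (4 * l) ^ (l * (m + 1)) ≤ W.card) :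
    (∃ A ⊆ W, A.card = l ∧ Indep 3 G A) ∨
    (∃ v ∈ W, ∃ A ⊆ W, A.card = m ∧ v ∉ A ∧ ∀ x ∈ A, ∀ y ∈ A, x ≠ y → G {v, x, y}) := by
  refine process_aux G l m hl W (l * (m + 1)) ∅ (fun _ => ∅) W (Finset.empty_subset _) ?_
    subset_rfl ?_ ?_ ?_ ?_ ?_ ?_ ?_ ?_ ?_ ?_ hW
  · simp
  · simp
  · intro e he hec
    rw [Finset.subset_empty.mp he] at hec
    simp at hec
  · simp
  · simp
  · simp
  · simp
  · simp
  · simp
  · simp
  · simp


/-- the invariant of the construction: `x 0, ..., x (t-1)` have been chosen, `W'` is the set of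
remaining candidates -/
private structure ERInv {V : Type*} [DecidableEq V] (H : Finset V → Prop) (T : ℕ) (W : Finset V)
    (t : ℕ) (x : ℕ → V) (W' : Finset V) : Prop where
  mem : ∀ i < t, x i ∈ W
  inj : ∀ i < t, ∀ j < t, x i = x j → i = j
  sub : W' ⊆ W
  nmem : ∀ i < t, x i ∉ W'
  card : 2 ^ ((T - t) * (T ^ 2 + 2)) ≤ W'.card
  same : ∀ a b c, a < b → b < c → c < t → ∀ w ∈ W', ∀ w' ∈ W',
    (H {x a, x b, x c, w} ↔ H {x a, x b, x c, w'})
  old : ∀ a b c d, a < b → b < c → c < d → d < t → ∀ w ∈ W',
    (H {x a, x b, x c, x d} ↔ H {x a, x b, x c, w})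

private theorem er_step {V : Type*} [DecidableEq V] {H : Finset V → Prop} {T : ℕ} {W : Finset V}
    {t : ℕ} (ht : t < T) {x : ℕ → V} {W' : Finset V} (h : ERInv H T W t x W') :
    ∃ x' W'', ERInv H T W (t + 1) x' W'' := by
  classical
  have hpos : 0 < W'.card := lt_of_lt_of_le (by positivity) h.card
  obtain ⟨w0, hw0⟩ := Finset.card_pos.1 hpos
  let f : V → Finset (ℕ × ℕ) := fun w =>
    (range t ×ˢ range t).filter (fun p => H {x p.1, x p.2, w0, w})
  obtain ⟨k, hk⟩ : ∃ k, T - t = k + 1 := ⟨T - t - 1, by omega⟩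
  have hk' : T - (t + 1) = k := by omega
  have hcard := h.card
  rw [hk] at hcard
  have hmul : ((range t ×ˢ range t).powerset).card * 2 ^ (k * (T ^ 2 + 2)) ≤
      (W'.erase w0).card := by
    rw [card_powerset, card_product, card_range, card_erase_of_mem hw0, ← pow_add]
    have h1 : t * t ≤ T ^ 2 := by
      rw [sq]
      exact Nat.mul_le_mul ht.le ht.le
    have h2 : 2 ^ (t * t + k * (T ^ 2 + 2)) * 2 ≤ 2 ^ ((k + 1) * (T ^ 2 + 2)) := by
      rw [← pow_succ]
      refine Nat.pow_le_pow_right (by norm_num) ?_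
      rw [Nat.add_mul]
      omega
    have h3 : 1 ≤ 2 ^ (t * t + k * (T ^ 2 + 2)) := Nat.one_le_two_pow
    omega
  obtain ⟨y, -, hy⟩ := Finset.exists_le_card_fiber_of_mul_le_card_of_maps_to
    (f := f) (s := W'.erase w0) (t := (range t ×ˢ range t).powerset)
    (fun w _ => mem_powerset.2 (filter_subset _ _)) ⟨∅, by simp⟩ hmul
  set x' : ℕ → V := Function.update x t w0 with hx'
  have hxt : x' t = w0 := by rw [hx', Function.update_self]
  have hxi : ∀ i, i < t → x' i = x i := by
    intro i hi
    rw [hx', Function.update_of_ne (by omega)]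
  have hsub : ∀ w ∈ (W'.erase w0).filter (fun w => f w = y), w ∈ W' ∧ w ≠ w0 ∧ f w = y := by
    intro w hw
    rw [mem_filter, mem_erase] at hw
    exact ⟨hw.1.2, hw.1.1, hw.2⟩
  refine ⟨x', (W'.erase w0).filter (fun w => f w = y), ?_, ?_, ?_, ?_, ?_, ?_, ?_⟩
  · intro i hi
    rcases Nat.lt_succ_iff_lt_or_eq.1 hi with h1 | rfl
    · rw [hxi i h1]; exact h.mem i h1
    · rw [hxt]; exact h.sub hw0
  · intro i hi j hj hij
    rcases Nat.lt_succ_iff_lt_or_eq.1 hi with h1 | rfl
    · rcases Nat.lt_succ_iff_lt_or_eq.1 hj with h2 | rfl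
      · rw [hxi i h1, hxi j h2] at hij
        exact h.inj i h1 j h2 hij
      · rw [hxi i h1, hxt] at hij
        exact absurd (hij ▸ hw0) (h.nmem i h1)
    · rcases Nat.lt_succ_iff_lt_or_eq.1 hj with h2 | rfl
      · rw [hxi j h2, hxt] at hij
        exact absurd (hij ▸ hw0) (h.nmem j h2)
      · rfl
  · intro w hw
    exact h.sub (hsub w hw).1
  · intro i hi hmem
    obtain ⟨h1, h2, -⟩ := hsub _ hmem
    rcases Nat.lt_succ_iff_lt_or_eq.1 hi with h3 | rfl
    · rw [hxi i h3] at h1
      exact h.nmem i h3 h1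
    · exact h2 hxt
  · rw [hk']
    exact hy
  · intro a b c hab hbc hct w hw w' hw'
    obtain ⟨h1, h2, h3⟩ := hsub w hw
    obtain ⟨h1', h2', h3'⟩ := hsub w' hw'
    rcases Nat.lt_succ_iff_lt_or_eq.1 hct with h4 | rfl
    · rw [hxi a (by omega), hxi b (by omega), hxi c h4]
      exact h.same a b c hab hbc h4 w h1 w' h1'
    · rw [hxi a (by omega), hxi b (by omega), hxt]
      have key : ((a, b) ∈ f w) ↔ ((a, b) ∈ f w') := by rw [h3, h3']
      simp only [f, mem_filter, mem_product, mem_range] at key
      have ha : a < c := by omega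
      have hb : b < c := by omega
      constructor
      · intro hh
        exact (key.1 ⟨⟨ha, hb⟩, hh⟩).2
      · intro hh
        exact (key.2 ⟨⟨ha, hb⟩, hh⟩).2
  · intro a b c d hab hbc hcd hdt w hw
    obtain ⟨h1, h2, h3⟩ := hsub w hw
    rcases Nat.lt_succ_iff_lt_or_eq.1 hdt with h4 | rfl
    · rw [hxi a (by omega), hxi b (by omega), hxi c (by omega), hxi d h4]
      exact h.old a b c d hab hbc hcd h4 w h1
    · rw [hxi a (by omega), hxi b (by omega), hxi c (by omega), hxt]
      exact h.same a b c hab hbc hcd w0 hw0 w h1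

private theorem er_all {V : Type*} [DecidableEq V] {H : Finset V → Prop} {T : ℕ} {W : Finset V}
    (hW : 2 ^ (T ^ 3 + 2 * T) ≤ W.card) : ∀ t ≤ T, ∃ x W', ERInv H T W t x W' := by
  intro t
  induction t with
  | zero =>
    intro _
    have hpos : 0 < W.card := lt_of_lt_of_le (by positivity) hW
    obtain ⟨w, -⟩ := Finset.card_pos.1 hpos
    refine ⟨fun _ => w, W, ?_, ?_, ?_, ?_, ?_, ?_, ?_⟩
    · intro i hi; omega
    · intro i hi; omega
    · exact subset_rfl
    · intro i hi; omega
    · refine le_trans (le_of_eq ?_) hW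
      congr 1
      rw [Nat.sub_zero]
      ring
    · intro a b c _ _ hc; omega
    · intro a b c d _ _ _ hd; omega
  | succ t ih =>
    intro ht
    obtain ⟨x, W', h⟩ := ih (by omega)
    exact er_step (by omega) h

/-- PIECE E. -/
theorem erdosRado {V : Type*} [DecidableEq V] (H : Finset V → Prop) (T : ℕ)
    (W : Finset V) (hW : 2 ^ (T ^ 3 + 2 * T) ≤ W.card) :
    ∃ x : ℕ → V, (∀ i ≤ T, x i ∈ W) ∧ (∀ i ≤ T, ∀ j ≤ T, x i = x j → i = j) ∧
      ∀ a b c d, a < b → b < c → c < d → d ≤ T →
        (H {x a, x b, x c, x d} ↔ H {x a, x b, x c, x T}) := by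
  obtain ⟨x, W', h⟩ := er_all (H := H) hW T le_rfl
  have hpos : 0 < W'.card := lt_of_lt_of_le (by positivity) h.card
  obtain ⟨w, hw⟩ := Finset.card_pos.1 hpos
  have hxt : (Function.update x T w) T = w := Function.update_self ..
  have hxi : ∀ i, i < T → (Function.update x T w) i = x i := by
    intro i hi
    rw [Function.update_of_ne (by omega)]
  refine ⟨Function.update x T w, ?_, ?_, ?_⟩
  · intro i hi
    rcases Nat.lt_or_eq_of_le hi with h1 | rfl
    · rw [hxi i h1]; exact h.mem i h1
    · rw [hxt]; exact h.sub hw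
  · intro i hi j hj hij
    rcases Nat.lt_or_eq_of_le hi with h1 | rfl
    · rcases Nat.lt_or_eq_of_le hj with h2 | rfl
      · rw [hxi i h1, hxi j h2] at hij
        exact h.inj i h1 j h2 hij
      · rw [hxi i h1, hxt] at hij
        exact absurd (hij ▸ hw) (h.nmem i h1)
    · rcases Nat.lt_or_eq_of_le hj with h2 | rfl
      · rw [hxi j h2, hxt] at hij
        exact absurd (hij ▸ hw) (h.nmem j h2)
      · rfl
  · intro a b c d hab hbc hcd hdt
    rcases Nat.lt_or_eq_of_le hdt with h1 | rfl
    · rw [hxi a (by omega), hxi b (by omega), hxi c (by omega), hxi d h1, hxt]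
      exact h.old a b c d hab hbc hcd h1 w hw
    · exact Iff.rfl


theorem descFactorial_mul_pow_le (N ρ : ℕ) (h : ρ ≤ N) (t : ℕ) :
    ρ.descFactorial t * N ^ t ≤ N.descFactorial t * ρ ^ t := by
  induction t with
  | zero => simp
  | succ t ih =>
    rw [Nat.descFactorial_succ, Nat.descFactorial_succ, pow_succ, pow_succ]
    have h1 : (ρ - t) * N ≤ (N - t) * ρ := by
      rcases le_total ρ t with h2 | h2
      · rw [Nat.sub_eq_zero_of_le h2]; simp
      · zify [h2, h2.trans h]
        have h3 : (ρ : ℤ) ≤ N := by exact_mod_cast h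
        have h4 : (0 : ℤ) ≤ t := by positivity
        nlinarith
    calc (ρ - t) * ρ.descFactorial t * (N ^ t * N)
        = ((ρ - t) * N) * (ρ.descFactorial t * N ^ t) := by ring
      _ ≤ ((N - t) * ρ) * (N.descFactorial t * ρ ^ t) := Nat.mul_le_mul h1 ih
      _ = (N - t) * N.descFactorial t * (ρ ^ t * ρ) := by ring

theorem choose_mul_pow_le (N ρ : ℕ) (h : ρ ≤ N) (t : ℕ) :
    ρ.choose t * N ^ t ≤ N.choose t * ρ ^ t := by
  have h1 := descFactorial_mul_pow_le N ρ h t
  rw [Nat.descFactorial_eq_factorial_mul_choose, Nat.descFactorial_eq_factorial_mul_choose,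
    mul_assoc, mul_assoc] at h1
  exact Nat.le_of_mul_le_mul_left h1 (Nat.factorial_pos t)

/-- PIECE S. -/
theorem supersat {V : Type*} [DecidableEq V] (P : Finset V → Prop) [DecidablePred P]
    (t ρ : ℕ) (ht : t ≤ ρ) (W : Finset V) (hW : ρ ≤ W.card)
    (h : ∀ X ⊆ W, X.card = ρ → ∃ A ⊆ X, A.card = t ∧ P A) :
    W.card ^ t ≤ ((W.powersetCard t).filter P).card * ρ ^ t := by
  set F : Finset (Finset V) := (W.powersetCard t).filter P with hF
  -- double counting
  have h1 : (W.powersetCard ρ).card * 1 ≤ F.card * ((W.card - t).choose (ρ - t)) := by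
    refine Finset.card_mul_le_card_mul (fun X A : Finset V => A ⊆ X) ?_ ?_
    · intro X hX
      rw [Finset.mem_powersetCard] at hX
      obtain ⟨A, hA1, hA2, hA3⟩ := h X hX.1 hX.2
      rw [Nat.succ_le_iff, Finset.card_pos]
      refine ⟨A, ?_⟩
      rw [Finset.mem_bipartiteAbove]
      exact ⟨Finset.mem_filter.2 ⟨Finset.mem_powersetCard.2 ⟨hA1.trans hX.1, hA2⟩, hA3⟩, hA1⟩
    · intro A hA
      rw [hF, Finset.mem_filter, Finset.mem_powersetCard] at hA
      obtain ⟨⟨hAW, hAc⟩, -⟩ := hA
      have hcard : ((W \ A).powersetCard (ρ - t)).card = (W.card - t).choose (ρ - t) := by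
        rw [Finset.card_powersetCard, Finset.card_sdiff_of_subset hAW, hAc]
      rw [← hcard]
      refine Finset.card_le_card_of_injOn (fun X => X \ A) ?_ ?_
      · intro X hX
        rw [Finset.mem_coe, Finset.mem_bipartiteBelow, Finset.mem_powersetCard] at hX
        obtain ⟨⟨hX1, hX2⟩, hX3⟩ := hX
        rw [Finset.mem_coe, Finset.mem_powersetCard]
        exact ⟨Finset.sdiff_subset_sdiff hX1 (le_refl A), by
          rw [Finset.card_sdiff_of_subset hX3, hX2, hAc]⟩
      · intro X hX Y hY hXY
        rw [Finset.mem_coe, Finset.mem_bipartiteBelow] at hX hY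
        have h2 : X \ A = Y \ A := hXY
        rw [← Finset.sdiff_union_of_subset hX.2, h2, Finset.sdiff_union_of_subset hY.2]
  rw [Finset.card_powersetCard, mul_one] at h1
  have h2 : W.card.choose ρ * ρ.choose t = W.card.choose t * (W.card - t).choose (ρ - t) :=
    Nat.choose_mul ht
  have h3 : W.card.choose t ≤ F.card * ρ.choose t := by
    have hpos : 0 < (W.card - t).choose (ρ - t) := Nat.choose_pos (by omega)
    refine Nat.le_of_mul_le_mul_right ?_ hpos
    calc W.card.choose t * (W.card - t).choose (ρ - t) = W.card.choose ρ * ρ.choose t := h2.symm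
      _ ≤ (F.card * ((W.card - t).choose (ρ - t))) * ρ.choose t := Nat.mul_le_mul_right _ h1
      _ = F.card * ρ.choose t * (W.card - t).choose (ρ - t) := by ring
  have h4 := choose_mul_pow_le W.card ρ hW t
  have hpos2 : 0 < ρ.choose t := Nat.choose_pos ht
  refine Nat.le_of_mul_le_mul_left ?_ hpos2
  calc ρ.choose t * W.card ^ t ≤ W.card.choose t * ρ ^ t := h4
    _ ≤ (F.card * ρ.choose t) * ρ ^ t := Nat.mul_le_mul_right _ h3
    _ = ρ.choose t * (F.card * ρ ^ t) := by ring

end MPadd94d
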