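import Mathlib
import Pool.Agent.Lib.MP_add94d_co.Base

/-!
MP_add94d_co: size of `rho`, the function `erdosRogers`, asymptotics.
-/

open Finset

namespace MPadd94d

theorem l_le_two_pow (l : ℕ) (hl : 2 ≤ l) : l ≤ 2 ^ (2 * Nat.log 2 l) := by
  have h1 : l < 2 ^ (Nat.log 2 l + 1) := Nat.lt_pow_succ_log_self (by norm_num) l
  have h2 : 1 ≤ Nat.log 2 l := Nat.log_pos (by norm_num) hl
  exact h1.le.trans (Nat.pow_le_pow_right (by norm_num) (by omega))

theorem RR_bound (k l : ℕ) (hl : 2 ≤ l) :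
    RR l (l ^ k) ≤ 2 ^ (2 ^ (26 * (l ^ (k + 1) * Nat.log 2 l))) := by
  set L := Nat.log 2 l with hL
  have hL1 : 1 ≤ L := Nat.log_pos (by norm_num) hl
  set X := l ^ (k + 1) * L with hX
  have hl0 : 0 < l := by omega
  have hlk : 1 ≤ l ^ (k + 1) := Nat.one_le_pow _ _ hl0
  have hX1 : 1 ≤ X := Nat.one_le_iff_ne_zero.mpr (by positivity)
  have h4l : 4 * l ≤ 2 ^ (4 * L) := by
    have h1 : l < 2 ^ (L + 1) := Nat.lt_pow_succ_log_self (by norm_num) l
    calc 4 * l ≤ 2 ^ 2 * 2 ^ (L + 1) := by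
          have := h1.le
          omega
      _ = 2 ^ (2 + (L + 1)) := by rw [← pow_add]
      _ ≤ 2 ^ (4 * L) := Nat.pow_le_pow_right (by norm_num) (by omega)
  have hT : TT l (l ^ k) ≤ 2 ^ (8 * X) := by
    unfold TT
    have h1 : l * (l ^ k + 1) ≤ 2 * l ^ (k + 1) := by
      have : l ≤ l ^ (k + 1) := Nat.le_self_pow (by omega) l
      calc l * (l ^ k + 1) = l ^ (k + 1) + l := by ring
        _ ≤ 2 * l ^ (k + 1) := by omega
    calc (4 * l) ^ (l * (l ^ k + 1)) ≤ (2 ^ (4 * L)) ^ (l * (l ^ k + 1)) :=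
          Nat.pow_le_pow_left h4l _
      _ = 2 ^ (4 * L * (l * (l ^ k + 1))) := by rw [← pow_mul]
      _ ≤ 2 ^ (8 * X) := Nat.pow_le_pow_right (by norm_num) (by
          calc 4 * L * (l * (l ^ k + 1)) ≤ 4 * L * (2 * l ^ (k + 1)) :=
                Nat.mul_le_mul_left _ h1
            _ = 8 * X := by rw [hX]; ring)
  have hT1 : 1 ≤ TT l (l ^ k) := Nat.one_le_pow _ _ (by omega)
  unfold RR
  refine Nat.pow_le_pow_right (by norm_num) ?_
  set T := TT l (l ^ k) with hTdef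
  have h3 : T ≤ T ^ 3 := Nat.le_self_pow (by norm_num) T
  calc T ^ 3 + 2 * T ≤ 4 * T ^ 3 := by omega
    _ ≤ 2 ^ 2 * (2 ^ (8 * X)) ^ 3 := by
        have := Nat.pow_le_pow_left hT 3
        omega
    _ = 2 ^ (2 + 8 * X * 3) := by rw [← pow_mul, ← pow_add]
    _ ≤ 2 ^ (26 * X) := Nat.pow_le_pow_right (by norm_num) (by omega)

theorem rho_bound_aux (k : ℕ) (j : ℕ) : ∃ C : ℕ, ∀ l : ℕ, 2 ≤ l →
    rho l (l ^ k) j ≤ 2 ^ (2 ^ (C * (l ^ (k + 1) * Nat.log 2 l))) := by
  induction j with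
  | zero =>
    refine ⟨0, fun l hl => ?_⟩
    simp [rho]
  | succ j ih =>
    obtain ⟨C, hC⟩ := ih
    refine ⟨C + 30 + (3 + 2 * j), fun l hl => ?_⟩
    have ih' := hC l hl
    have hR := RR_bound k l hl
    have hlL := l_le_two_pow l hl
    set L := Nat.log 2 l with hL
    have hL1 : 1 ≤ L := Nat.log_pos (by norm_num) hl
    set X := l ^ (k + 1) * L with hX
    have hl0 : 0 < l := by omega
    have hX1 : 1 ≤ X := Nat.one_le_iff_ne_zero.mpr (by positivity)
    have hLX : L ≤ X := Nat.le_mul_of_pos_left _ (by positivity)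
    have hlX : l * L ≤ X := Nat.mul_le_mul_right _ (Nat.le_self_pow (by omega) l)
    have hbase : 2 * (RR l (l ^ k)) ^ l * rho l (l ^ k) j ≤ 2 ^ (2 ^ ((C + 30) * X)) := by
      calc 2 * (RR l (l ^ k)) ^ l * rho l (l ^ k) j
          ≤ 2 ^ 1 * (2 ^ (2 ^ (26 * X))) ^ l * 2 ^ (2 ^ (C * X)) := by
            rw [pow_one]
            exact Nat.mul_le_mul (Nat.mul_le_mul_left _ (Nat.pow_le_pow_left hR l)) ih'
        _ = 2 ^ (1 + 2 ^ (26 * X) * l + 2 ^ (C * X)) := by
            rw [← pow_mul, ← pow_add, ← pow_add]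
        _ ≤ 2 ^ (2 ^ ((C + 30) * X)) := Nat.pow_le_pow_right (by norm_num) (by
            have h1 : 2 ^ (26 * X) * l ≤ 2 ^ (28 * X) := by
              calc 2 ^ (26 * X) * l ≤ 2 ^ (26 * X) * 2 ^ (2 * L) := Nat.mul_le_mul_left _ hlL
                _ = 2 ^ (26 * X + 2 * L) := by rw [← pow_add]
                _ ≤ 2 ^ (28 * X) := Nat.pow_le_pow_right (by norm_num) (by omega)
            have h2 : 2 ^ (28 * X) ≤ 2 ^ (28 * X + C * X) :=
              Nat.pow_le_pow_right (by norm_num) (by omega)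
            have h3 : 2 ^ (C * X) ≤ 2 ^ (28 * X + C * X) :=
              Nat.pow_le_pow_right (by norm_num) (by omega)
            have h4 : 1 ≤ 2 ^ (28 * X + C * X) := Nat.one_le_pow _ _ (by norm_num)
            have h5 : 2 ^ ((C + 30) * X) = 2 ^ (28 * X + C * X) * 2 ^ (2 * X) := by
              rw [← pow_add]; congr 1; ring
            have h6 : 4 ≤ 2 ^ (2 * X) := by
              calc 4 = 2 ^ 2 := by norm_num
                _ ≤ 2 ^ (2 * X) := Nat.pow_le_pow_right (by norm_num) (by omega)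
            rw [h5]
            calc 1 + 2 ^ (26 * X) * l + 2 ^ (C * X)
                ≤ 2 ^ (28 * X + C * X) * 4 := by omega
              _ ≤ _ := Nat.mul_le_mul_left _ h6)
    have hexp : (2 * l ^ j + 4) ^ l ≤ 2 ^ ((3 + 2 * j) * X) := by
      have h1 : 2 * l ^ j + 4 ≤ 2 ^ ((3 + 2 * j) * L) := by
        have hlj : 1 ≤ l ^ j := Nat.one_le_pow _ _ hl0
        calc 2 * l ^ j + 4 ≤ 2 ^ 3 * l ^ j := by omega
          _ ≤ 2 ^ 3 * (2 ^ (2 * L)) ^ j := Nat.mul_le_mul_left _ (Nat.pow_le_pow_left hlL j)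
          _ = 2 ^ (3 + 2 * L * j) := by rw [← pow_mul, ← pow_add]
          _ ≤ 2 ^ ((3 + 2 * j) * L) := Nat.pow_le_pow_right (by norm_num) (by nlinarith)
      calc (2 * l ^ j + 4) ^ l ≤ (2 ^ ((3 + 2 * j) * L)) ^ l := Nat.pow_le_pow_left h1 l
        _ = 2 ^ ((3 + 2 * j) * (l * L)) := by rw [← pow_mul]; congr 1; ring
        _ ≤ 2 ^ ((3 + 2 * j) * X) :=
            Nat.pow_le_pow_right (by norm_num) (Nat.mul_le_mul_left _ hlX)
    calc rho l (l ^ k) (j + 1)
        = (2 * (RR l (l ^ k)) ^ l * rho l (l ^ k) j) ^ ((2 * l ^ j + 4) ^ l) := rfl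
      _ ≤ (2 ^ (2 ^ ((C + 30) * X))) ^ ((2 * l ^ j + 4) ^ l) := Nat.pow_le_pow_left hbase _
      _ = 2 ^ (2 ^ ((C + 30) * X) * (2 * l ^ j + 4) ^ l) := by rw [← pow_mul]
      _ ≤ 2 ^ (2 ^ ((C + 30) * X) * 2 ^ ((3 + 2 * j) * X)) :=
          Nat.pow_le_pow_right (by norm_num) (Nat.mul_le_mul_left _ hexp)
      _ = 2 ^ (2 ^ ((C + 30 + (3 + 2 * j)) * X)) := by
          rw [← pow_add]; congr 2; ring

/-- PIECE A1: size of `rho`. -/
theorem rho_bound (k : ℕ) (hk : 1 ≤ k) : ∃ C : ℕ, 1 ≤ C ∧ ∀ l : ℕ, 2 ≤ l →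
    rho l (l ^ k) k ≤ 2 ^ (2 ^ (C * l ^ (k + 1) * Nat.log 2 l)) := by
  obtain ⟨C, hC⟩ := rho_bound_aux k k
  refine ⟨C + 1, by omega, fun l hl => (hC l hl).trans ?_⟩
  refine Nat.pow_le_pow_right (by norm_num) (Nat.pow_le_pow_right (by norm_num) ?_)
  rw [mul_assoc]
  exact Nat.mul_le_mul_right _ (by omega)

/-- `n`-vertex `k`-graphs on `Fin n`: the Erdős–Rogers property with value `m`. -/
def ERProp (k s t n m : ℕ) : Prop :=
  ∀ H : Finset (Finset (Fin n)), (∀ e ∈ H, e.card = k) →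
    KFree k t (fun e => e ∈ H) univ → ∃ A : Finset (Fin n), A.card = m ∧ KFree k s (fun e => e ∈ H) A

/-- the Erdős–Rogers function `f^{(k)}_{s,t}(n)` -/
noncomputable def erdosRogers (k s t n : ℕ) : ℕ := sSup {m | ERProp k s t n m}

/-- PIECE A2: the property gives a lower bound for the function. -/
theorem le_erdosRogers (k s t n m : ℕ) (hk : 1 ≤ k) (ht : k ≤ t) (h : ERProp k s t n m) :
    m ≤ erdosRogers k s t n := by
  unfold erdosRogers
  refine le_csSup ⟨n, ?_⟩ h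
  rintro m' hm'
  obtain ⟨A, hA, -⟩ := hm' ∅ (by simp) (by
    intro Q _ hQ hc
    obtain ⟨e, he, hek⟩ := Finset.exists_subset_card_eq (s := Q) (n := k) (by omega)
    exact absurd (hc e he hek) (by simp))
  rw [← hA]
  calc A.card ≤ Fintype.card (Fin n) := Finset.card_le_univ A
    _ = n := Fintype.card_fin n

/-- PIECE A3: the analytic conversion. -/
theorem asymp (k : ℕ) (hk : 1 ≤ k) (C : ℕ) (hC : 1 ≤ C) :
    ∃ c : ℝ, 0 < c ∧ ∃ n₀ : ℕ, ∀ n : ℕ, n₀ ≤ n →
      ∃ l : ℕ, 2 ≤ l ∧ 2 ^ (2 ^ (C * l ^ (k + 1) * Nat.log 2 l)) ≤ n ∧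
        c * (Real.log (Real.log n) / Real.log (Real.log (Real.log n))) ^ ((k : ℝ) / (k + 1)) ≤
          (l : ℝ) ^ k := by
  have hCpos : (0 : ℝ) < C := by exact_mod_cast hC
  set c0 : ℝ := 1 / (2 * C) with hc0
  have hc0pos : 0 < c0 := by positivity
  have hk1 : (0 : ℝ) < (k : ℝ) + 1 := by positivity
  -- divergence
  have hdiv : Filter.Tendsto (fun x : ℝ => x / Real.log x) Filter.atTop Filter.atTop := by
    have h1 : Filter.Tendsto (fun x : ℝ => Real.log x / x) Filter.atTop (nhds 0) :=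
      Real.isLittleO_log_id_atTop.tendsto_div_nhds_zero
    have h2 : Filter.Tendsto (fun x : ℝ => Real.log x / x) Filter.atTop (nhdsWithin 0 (Set.Ioi 0)) := by
      rw [tendsto_nhdsWithin_iff]
      refine ⟨h1, ?_⟩
      filter_upwards [Filter.eventually_gt_atTop 1] with x hx
      exact div_pos (Real.log_pos hx) (by linarith)
    have h3 := h2.inv_tendsto_nhdsGT_zero
    refine h3.congr fun x => ?_
    simp
  have hloglog : Filter.Tendsto (fun n : ℕ => Real.log (Real.log (n : ℝ))) Filter.atTop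
      Filter.atTop :=
    Real.tendsto_log_atTop.comp (Real.tendsto_log_atTop.comp tendsto_natCast_atTop_atTop)
  have hlll : Filter.Tendsto (fun n : ℕ => Real.log (Real.log (Real.log (n : ℝ)))) Filter.atTop
      Filter.atTop := Real.tendsto_log_atTop.comp hloglog
  have hy : Filter.Tendsto (fun n : ℕ => Real.log (Real.log (n : ℝ)) /
      Real.log (Real.log (Real.log (n : ℝ)))) Filter.atTop Filter.atTop := hdiv.comp hloglog
  have hev : ∀ᶠ n : ℕ in Filter.atTop,
      1 ≤ Real.log (Real.log (Real.log (n : ℝ))) ∧ 1 ≤ Real.log (Real.log (n : ℝ)) ∧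
      2 ^ (k + 1) / c0 ≤ Real.log (Real.log (n : ℝ)) / Real.log (Real.log (Real.log (n : ℝ))) ∧
      1 ≤ Real.log (n : ℝ) ∧ 1 ≤ n := by
    have hlog : Filter.Tendsto (fun n : ℕ => Real.log (n : ℝ)) Filter.atTop Filter.atTop :=
      Real.tendsto_log_atTop.comp tendsto_natCast_atTop_atTop
    filter_upwards [hlll.eventually_ge_atTop 1, hloglog.eventually_ge_atTop 1,
      hy.eventually_ge_atTop (2 ^ (k + 1) / c0), hlog.eventually_ge_atTop 1,
      Filter.eventually_ge_atTop 1] with n h1 h2 h3 h4 h5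
    exact ⟨h1, h2, h3, h4, h5⟩
  obtain ⟨n₀, hn₀⟩ := Filter.eventually_atTop.mp hev
  refine ⟨(1 / 2) ^ k * c0 ^ ((k : ℝ) / (k + 1)), by positivity, n₀, fun n hn => ?_⟩
  obtain ⟨h1, h2, h3, h4, h5⟩ := hn₀ n hn
  set M := Real.log (Real.log (n : ℝ)) with hM
  set y := M / Real.log M with hydef
  have hypos : 0 < y := div_pos (by linarith) (by linarith)
  have hcy : 2 ^ (k + 1) ≤ c0 * y := by
    rw [div_le_iff₀ hc0pos] at h3
    linarith
  set z : ℝ := (c0 * y) ^ ((1 : ℝ) / (k + 1)) with hz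
  have hz2 : 2 ≤ z := by
    have : ((2 : ℝ) ^ (k + 1)) ^ ((1 : ℝ) / (k + 1)) ≤ z :=
      Real.rpow_le_rpow (by positivity) hcy (by positivity)
    have h2' : ((2 : ℝ) ^ (k + 1)) ^ ((1 : ℝ) / (k + 1)) = 2 := by
      rw [← Real.rpow_natCast, ← Real.rpow_mul (by norm_num)]
      push_cast
      rw [mul_one_div_cancel hk1.ne', Real.rpow_one]
    linarith
  have hzpow : z ^ (k + 1) = c0 * y := by
    rw [hz, ← Real.rpow_natCast, ← Real.rpow_mul (by positivity)]
    push_cast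
    rw [one_div_mul_cancel hk1.ne', Real.rpow_one]
  set l := ⌊z⌋₊ with hl
  have hlz : (l : ℝ) ≤ z := Nat.floor_le (by linarith)
  have hl2 : 2 ≤ l := Nat.le_floor (by exact_mod_cast hz2)
  have hlhalf : z / 2 ≤ l := by
    have := Nat.lt_floor_add_one z
    have : z < l + 1 := this
    have hl2' : (2 : ℝ) ≤ l := by exact_mod_cast hl2
    linarith
  refine ⟨l, hl2, ?_, ?_⟩
  · -- size bound
    set E := C * l ^ (k + 1) * Nat.log 2 l with hE
    have hlpos : (0 : ℝ) < l := by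
      have : (2 : ℝ) ≤ l := by exact_mod_cast hl2
      linarith
    have hlogl : (Nat.log 2 l : ℝ) * Real.log 2 ≤ Real.log l := by
      have h := Nat.pow_log_le_self 2 (x := l) (by omega)
      have h' : ((2 : ℝ) ^ (Nat.log 2 l)) ≤ l := by exact_mod_cast h
      have := Real.log_le_log (by positivity) h'
      rwa [Real.log_pow] at this
    have hpow : (l : ℝ) ^ (k + 1) ≤ c0 * y := by
      rw [← hzpow]; exact pow_le_pow_left₀ hlpos.le hlz _
    have hlogM : Real.log l ≤ Real.log M := by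
      have h1l : (1 : ℝ) ≤ l := by exact_mod_cast (by omega : 1 ≤ l)
      have hle : (l : ℝ) ≤ (l : ℝ) ^ (k + 1) := le_self_pow₀ h1l (by omega)
      have hc01 : c0 ≤ 1 := by
        rw [hc0, div_le_one (by positivity)]
        have : (1 : ℝ) ≤ C := by exact_mod_cast hC
        linarith
      have hyM : y ≤ M := by
        rw [hydef, div_le_iff₀ (by linarith)]
        nlinarith
      have : (l : ℝ) ≤ M := by
        calc (l : ℝ) ≤ c0 * y := hle.trans hpow
          _ ≤ 1 * y := mul_le_mul_of_nonneg_right hc01 hypos.le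
          _ ≤ M := by linarith
      exact Real.log_le_log hlpos this
    have hElog : (E : ℝ) * Real.log 2 ≤ M := by
      have hEc : (E : ℝ) = C * (l : ℝ) ^ (k + 1) * (Nat.log 2 l : ℝ) := by
        rw [hE]; push_cast; ring
      rw [hEc]
      calc (C : ℝ) * (l : ℝ) ^ (k + 1) * (Nat.log 2 l : ℝ) * Real.log 2
          = (C : ℝ) * (l : ℝ) ^ (k + 1) * ((Nat.log 2 l : ℝ) * Real.log 2) := by ring
        _ ≤ (C : ℝ) * (c0 * y) * Real.log M := by
            apply mul_le_mul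
            · exact mul_le_mul_of_nonneg_left hpow hCpos.le
            · exact hlogl.trans hlogM
            · exact mul_nonneg (by positivity) (Real.log_nonneg (by norm_num))
            · positivity
        _ = M / 2 := by
            rw [hydef, hc0]
            have hlM : Real.log M ≠ 0 := by linarith
            field_simp
        _ ≤ M := by linarith
    have h2E : ((2 : ℝ) ^ E) ≤ Real.log n := by
      have hexp : (2 : ℝ) ^ E = Real.exp (E * Real.log 2) := by
        rw [mul_comm, Real.exp_mul, Real.exp_log (by norm_num), Real.rpow_natCast]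
      rw [hexp]
      calc Real.exp (E * Real.log 2) ≤ Real.exp M := Real.exp_le_exp.mpr hElog
        _ = Real.log n := by rw [hM, Real.exp_log (by linarith)]
    have hnpos : (0 : ℝ) < n := by exact_mod_cast h5
    have hfin : ((2 : ℝ) ^ (2 ^ E : ℕ)) ≤ n := by
      have hexp : (2 : ℝ) ^ (2 ^ E : ℕ) = Real.exp (((2 ^ E : ℕ) : ℝ) * Real.log 2) := by
        rw [mul_comm, Real.exp_mul, Real.exp_log (by norm_num), Real.rpow_natCast]
      rw [hexp]
      calc Real.exp (((2 ^ E : ℕ) : ℝ) * Real.log 2) ≤ Real.exp (Real.log n) := by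
            apply Real.exp_le_exp.mpr
            push_cast
            have hl2 : Real.log 2 ≤ 1 := by
              have := Real.log_two_lt_d9
              linarith
            calc (2 : ℝ) ^ E * Real.log 2 ≤ (2 : ℝ) ^ E * 1 :=
                  mul_le_mul_of_nonneg_left hl2 (by positivity)
              _ ≤ Real.log n := by linarith
        _ = n := Real.exp_log hnpos
    exact_mod_cast hfin
  · have hexp : y ^ ((k : ℝ) / (k + 1)) * c0 ^ ((k : ℝ) / (k + 1)) = z ^ k := by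
      rw [← Real.mul_rpow hypos.le hc0pos.le, hz, ← Real.rpow_natCast,
        ← Real.rpow_mul (by positivity), mul_comm y c0]
      congr 1
      field_simp
    calc (1 / 2) ^ k * c0 ^ ((k : ℝ) / (k + 1)) * y ^ ((k : ℝ) / (k + 1))
        = (1 / 2) ^ k * (y ^ ((k : ℝ) / (k + 1)) * c0 ^ ((k : ℝ) / (k + 1))) := by ring
      _ = (1 / 2) ^ k * z ^ k := by rw [hexp]
      _ = (z / 2) ^ k := by rw [← mul_pow]; congr 1; ring
      _ ≤ (l : ℝ) ^ k := pow_le_pow_left₀ (by linarith) hlhalf k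

end MPadd94d
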