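import Mathlib
import Pool.Agent.Lib.MP_add94d_co.Base

/-!
MP_add94d_co: blow-up lemma, independent sets, nested sets.
-/

open Finset

namespace MPadd94d

/-- splitting off the first coordinate of a tuple -/
theorem card_filter_cons {V : Type*} [DecidableEq V] (W : Finset V) (l : ℕ)
    (Good : (Fin (l + 1) → V) → Prop) [DecidablePred Good] :
    ((Fintype.piFinset (fun _ : Fin (l + 1) => W)).filter Good).card =
      ∑ y ∈ Fintype.piFinset (fun _ : Fin l => W),
        (W.filter (fun x => Good (Fin.cons x y : Fin (l + 1) → V))).card := by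
  classical
  rw [← Finset.card_sigma]
  refine Finset.card_bij (fun z _ => ⟨Fin.tail z, z 0⟩) ?_ ?_ ?_
  · intro z hz
    rw [Finset.mem_filter, Fintype.mem_piFinset] at hz
    rw [Finset.mem_sigma, Fintype.mem_piFinset, Finset.mem_filter]
    refine ⟨fun a => hz.1 _, hz.1 0, ?_⟩
    rw [Fin.cons_self_tail]
    exact hz.2
  · intro z _ z' _ h
    rw [Sigma.mk.injEq] at h
    rw [← Fin.cons_self_tail z, ← Fin.cons_self_tail z', h.1, eq_of_heq h.2]
  · rintro ⟨y, x⟩ h
    rw [Finset.mem_sigma, Fintype.mem_piFinset, Finset.mem_filter] at h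
    refine ⟨(Fin.cons x y : Fin (l + 1) → V), ?_, ?_⟩
    · rw [Finset.mem_filter, Fintype.mem_piFinset]
      refine ⟨fun a => ?_, h.2.2⟩
      refine Fin.cases ?_ (fun i => ?_) a
      · rw [Fin.cons_zero]; exact h.2.1
      · rw [Fin.cons_succ]; exact h.1 i
    · simp only [Fin.tail_cons, Fin.cons_zero]

/-- PIECE B. Tuples in `W^l` are functions `Fin l → V` in `Fintype.piFinset (fun _ => W)`. -/
theorem blowup {V : Type*} [DecidableEq V] (S : Finset V → Prop) (t ρ : ℕ) (ht : 1 ≤ t)
    (hρ : t ≤ ρ) (W : Finset V)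
    (hS : ∀ X ⊆ W, X.card = ρ → ∃ A ⊆ X, A.card = t ∧ S A) (l : ℕ) :
    ∀ (Good : (Fin l → V) → Prop) [DecidablePred Good] (D : ℕ), 1 ≤ D →
      W.card ^ l ≤ D * ((Fintype.piFinset (fun _ : Fin l => W)).filter Good).card →
      (2 * D * ρ) ^ ((2 * t + 4) ^ l) ≤ W.card →
      ∃ τ : Fin l → Finset V, (∀ a, τ a ⊆ W ∧ (τ a).card = t ∧ S (τ a)) ∧
        ∀ x : Fin l → V, (∀ a, x a ∈ τ a) → Good x := by
  classical
  induction l with
  | zero =>
    intro Good _ D hD h1 _
    have hne : ((Fintype.piFinset (fun _ : Fin 0 => W)).filter Good).Nonempty := by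
      rw [Finset.nonempty_iff_ne_empty]
      intro he
      rw [he] at h1
      simp at h1
    obtain ⟨z, hz⟩ := hne
    rw [Finset.mem_filter] at hz
    refine ⟨fun a => a.elim0, fun a => a.elim0, fun x _ => ?_⟩
    have : x = z := funext fun a => a.elim0
    rw [this]
    exact hz.2
  | succ l ih =>
    intro Good _ D hD h1 h2
    set N := W.card with hN
    have hρ1 : 1 ≤ ρ := ht.trans hρ
    have hK2 : 2 ≤ 2 * D * ρ := by
      have := Nat.mul_le_mul hD hρ1
      nlinarith
    have hK1 : 1 ≤ 2 * D * ρ := by omega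
    have hKN : 2 * D * ρ ≤ N := by
      calc 2 * D * ρ = (2 * D * ρ) ^ 1 := (pow_one _).symm
        _ ≤ (2 * D * ρ) ^ ((2 * t + 4) ^ (l + 1)) :=
          Nat.pow_le_pow_right hK1 (Nat.one_le_pow _ _ (by omega))
        _ ≤ N := h2
    have hNpos : 0 < N := by omega
    set Y := Fintype.piFinset (fun _ : Fin l => W) with hY
    have hYc : Y.card = N ^ l := by rw [hY, Fintype.card_piFinset]; simp [hN]
    let F : (Fin l → V) → Finset V := fun y =>
      W.filter (fun x => Good (Fin.cons x y : Fin (l + 1) → V))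
    have hF : ∀ y, F y ⊆ W := fun y => Finset.filter_subset _ _
    rw [card_filter_cons] at h1
    change N ^ (l + 1) ≤ D * ∑ y ∈ Y, (F y).card at h1
    let Yg := Y.filter (fun y => N ≤ 2 * D * (F y).card)
    -- many good y
    have hYg : N ^ l ≤ 2 * D * Yg.card := by
      have hsum : 2 * D * ∑ y ∈ Y, (F y).card ≤ 2 * D * N * Yg.card + N * N ^ l := by
        have hsplit := Finset.sum_filter_add_sum_filter_not Y (fun y => N ≤ 2 * D * (F y).card)
          (fun y => 2 * D * (F y).card)
        rw [Finset.mul_sum, ← hsplit]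
        refine Nat.add_le_add ?_ ?_
        · calc ∑ y ∈ Yg, 2 * D * (F y).card ≤ ∑ _y ∈ Yg, 2 * D * N :=
                Finset.sum_le_sum fun y _ => Nat.mul_le_mul_left _ (Finset.card_le_card (hF y))
            _ = 2 * D * N * Yg.card := by rw [Finset.sum_const, smul_eq_mul]; ring
        · calc ∑ y ∈ Y.filter (fun y => ¬ N ≤ 2 * D * (F y).card), 2 * D * (F y).card
              ≤ ∑ _y ∈ Y.filter (fun y => ¬ N ≤ 2 * D * (F y).card), N :=
                Finset.sum_le_sum fun y hy => by
                  have := (Finset.mem_filter.1 hy).2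
                  omega
            _ = (Y.filter (fun y => ¬ N ≤ 2 * D * (F y).card)).card * N := by
                rw [Finset.sum_const, smul_eq_mul]
            _ ≤ Y.card * N := Nat.mul_le_mul_right _ (Finset.card_le_card (Finset.filter_subset _ _))
            _ = N * N ^ l := by rw [hYc]; ring
      have h3 : 2 * N ^ (l + 1) ≤ 2 * D * N * Yg.card + N * N ^ l := by
        calc 2 * N ^ (l + 1) ≤ 2 * (D * ∑ y ∈ Y, (F y).card) := Nat.mul_le_mul_left _ h1
          _ = 2 * D * ∑ y ∈ Y, (F y).card := by ring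
          _ ≤ _ := hsum
      have h4 : N * N ^ l ≤ N * (2 * D * Yg.card) := by
        have e1 : 2 * N ^ (l + 1) = N * N ^ l + N * N ^ l := by ring
        have e2 : 2 * D * N * Yg.card = N * (2 * D * Yg.card) := by ring
        rw [e1, e2] at h3
        omega
      exact Nat.le_of_mul_le_mul_left h4 hNpos
    have hYgpos : 0 < Yg.card := by
      rcases Nat.eq_zero_or_pos Yg.card with h0 | h0
      · rw [h0] at hYg
        have := Nat.one_le_pow l N hNpos
        omega
      · exact h0
    -- supersaturation in each F y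
    set K := (2 * D * ρ) ^ t with hK
    let TT := (W.powersetCard t).filter S
    have hsat : ∀ y ∈ Yg, N ^ t ≤ (TT.filter (fun τ => τ ⊆ F y)).card * K := by
      intro y hy
      have hy' := (Finset.mem_filter.1 hy).2
      have hFρ : ρ ≤ (F y).card := by
        have : 2 * D * ρ ≤ 2 * D * (F y).card := hKN.trans hy'
        exact Nat.le_of_mul_le_mul_left this (by omega)
      have hs := supersat S t ρ hρ (F y) hFρ (fun X hX hXc => hS X (hX.trans (hF y)) hXc)
      have hle : (((F y).powersetCard t).filter S).card ≤ (TT.filter (fun τ => τ ⊆ F y)).card := by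
        refine Finset.card_le_card fun A hA => ?_
        rw [Finset.mem_filter, Finset.mem_powersetCard] at hA
        rw [Finset.mem_filter, Finset.mem_filter, Finset.mem_powersetCard]
        exact ⟨⟨⟨hA.1.1.trans (hF y), hA.1.2⟩, hA.2⟩, hA.1.1⟩
      calc N ^ t ≤ (2 * D * (F y).card) ^ t := Nat.pow_le_pow_left hy' t
        _ = (2 * D) ^ t * (F y).card ^ t := by rw [mul_pow]
        _ ≤ (2 * D) ^ t * ((((F y).powersetCard t).filter S).card * ρ ^ t) :=
            Nat.mul_le_mul_left _ hs
        _ = (((F y).powersetCard t).filter S).card * K := by rw [hK, mul_pow]; ring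
        _ ≤ _ := Nat.mul_le_mul_right _ hle
    -- double counting
    let c : Finset V → ℕ := fun τ => (Yg.filter (fun y => τ ⊆ F y)).card
    have hdc : ∑ y ∈ Yg, (TT.filter (fun τ => τ ⊆ F y)).card = ∑ τ ∈ TT, c τ := by
      have := Finset.sum_card_bipartiteAbove_eq_sum_card_bipartiteBelow
        (s := Yg) (t := TT) (fun y τ => τ ⊆ F y)
      simpa [Finset.bipartiteAbove, Finset.bipartiteBelow, c] using this
    have htot : Yg.card * N ^ t ≤ ∑ τ ∈ TT, c τ * K := by
      calc Yg.card * N ^ t = ∑ _y ∈ Yg, N ^ t := by rw [Finset.sum_const, smul_eq_mul]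
        _ ≤ ∑ y ∈ Yg, (TT.filter (fun τ => τ ⊆ F y)).card * K := Finset.sum_le_sum hsat
        _ = (∑ y ∈ Yg, (TT.filter (fun τ => τ ⊆ F y)).card) * K := by rw [Finset.sum_mul]
        _ = ∑ τ ∈ TT, c τ * K := by rw [hdc, Finset.sum_mul]
    have hTTc : TT.card ≤ N ^ t := by
      calc TT.card ≤ (W.powersetCard t).card := Finset.card_le_card (Finset.filter_subset _ _)
        _ = N.choose t := Finset.card_powersetCard _ _
        _ ≤ N ^ t := Nat.choose_le_pow _ _
    have hTTne : TT.Nonempty := by
      rw [Finset.nonempty_iff_ne_empty]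
      intro he
      rw [he] at htot
      simp only [Finset.sum_empty, Nat.le_zero, Nat.mul_eq_zero] at htot
      rcases htot with h0 | h0
      · omega
      · have := Nat.one_le_pow t N hNpos
        omega
    obtain ⟨τ, hτ, hcτ⟩ : ∃ τ ∈ TT, Yg.card ≤ c τ * K := by
      refine Finset.exists_le_of_sum_le hTTne ?_
      calc ∑ _τ ∈ TT, Yg.card = TT.card * Yg.card := by rw [Finset.sum_const, smul_eq_mul]
        _ ≤ N ^ t * Yg.card := Nat.mul_le_mul_right _ hTTc
        _ = Yg.card * N ^ t := mul_comm _ _
        _ ≤ _ := htot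
    rw [Finset.mem_filter, Finset.mem_powersetCard] at hτ
    -- induction
    set D' := 2 * D * K with hD'
    have hKpos : 1 ≤ K := Nat.one_le_pow _ _ hK1
    have hD'1 : 1 ≤ D' := by
      have := Nat.mul_le_mul (show 1 ≤ 2 * D by omega) hKpos
      simpa [hD'] using this
    have hg : N ^ l ≤ D' * (Y.filter
        (fun y => ∀ x ∈ τ, Good (Fin.cons x y : Fin (l + 1) → V))).card := by
      have hle : c τ ≤ (Y.filter
          (fun y => ∀ x ∈ τ, Good (Fin.cons x y : Fin (l + 1) → V))).card := by
        refine Finset.card_le_card fun y hy => ?_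
        rw [Finset.mem_filter] at hy
        rw [Finset.mem_filter]
        exact ⟨(Finset.mem_filter.1 hy.1).1, fun x hx => (Finset.mem_filter.1 (hy.2 hx)).2⟩
      calc N ^ l ≤ 2 * D * Yg.card := hYg
        _ ≤ 2 * D * (c τ * K) := Nat.mul_le_mul_left _ hcτ
        _ = D' * c τ := by rw [hD']; ring
        _ ≤ _ := Nat.mul_le_mul_left _ hle
    have hsize : (2 * D' * ρ) ^ ((2 * t + 4) ^ l) ≤ N := by
      have e1 : 2 * D' * ρ ≤ (2 * D * ρ) ^ (t + 2) := by
        calc 2 * D' * ρ = 2 * ((2 * D * ρ) * (2 * D * ρ) ^ t) := by rw [hD', hK]; ring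
          _ ≤ (2 * D * ρ) * ((2 * D * ρ) * (2 * D * ρ) ^ t) := Nat.mul_le_mul_right _ hK2
          _ = (2 * D * ρ) ^ (t + 2) := by ring
      calc (2 * D' * ρ) ^ ((2 * t + 4) ^ l) ≤ ((2 * D * ρ) ^ (t + 2)) ^ ((2 * t + 4) ^ l) :=
            Nat.pow_le_pow_left e1 _
        _ = (2 * D * ρ) ^ ((t + 2) * (2 * t + 4) ^ l) := by rw [← pow_mul]
        _ ≤ (2 * D * ρ) ^ ((2 * t + 4) ^ (l + 1)) := by
            refine Nat.pow_le_pow_right hK1 ?_
            rw [pow_succ, mul_comm]
            exact Nat.mul_le_mul_left _ (by omega)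
        _ ≤ N := h2
    obtain ⟨τ', h5, h6⟩ := ih (fun y => ∀ x ∈ τ, Good (Fin.cons x y : Fin (l + 1) → V)) D' hD'1
      hg hsize
    refine ⟨Fin.cons τ τ', ?_, ?_⟩
    · intro a
      refine Fin.cases ?_ (fun i => ?_) a
      · rw [Fin.cons_zero]; exact ⟨hτ.1.1, hτ.1.2, hτ.2⟩
      · rw [Fin.cons_succ]; exact h5 i
    · intro x hx
      have h7 := h6 (Fin.tail x) (fun a => by
        have := hx a.succ
        rwa [Fin.cons_succ] at this) (x 0) (by
        have := hx 0
        rwa [Fin.cons_zero] at this)
      rwa [Fin.cons_self_tail] at h7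

theorem sorted_three (e : Finset ℕ) (h : e.card = 3) :
    ∃ a b c, a < b ∧ b < c ∧ e = {a, b, c} := by
  have hr := Finset.range_orderEmbOfFin e h
  refine ⟨e.orderEmbOfFin h 0, e.orderEmbOfFin h 1, e.orderEmbOfFin h 2, ?_, ?_, ?_⟩
  · exact (e.orderEmbOfFin h).strictMono (by decide)
  · exact (e.orderEmbOfFin h).strictMono (by decide)
  · ext n
    rw [← Finset.mem_coe, ← hr]
    simp only [Set.mem_range, Finset.mem_insert, Finset.mem_singleton]
    constructor
    · rintro ⟨i, rfl⟩
      fin_cases i <;> simp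
    · rintro (h1 | h1 | h1)
      · exact ⟨0, h1.symm⟩
      · exact ⟨1, h1.symm⟩
      · exact ⟨2, h1.symm⟩

theorem exists_preimage {V : Type*} [DecidableEq V] (x : ℕ → V) (A : Finset ℕ)
    (hx : Set.InjOn x A) (e : Finset V) (he : e ⊆ A.image x) :
    ∃ e' ⊆ A, e'.image x = e ∧ e'.card = e.card := by
  obtain ⟨e', h1, h2⟩ := Finset.subset_image_iff.1 he
  have h1' : e' ⊆ A := by exact_mod_cast h1
  refine ⟨e', h1', h2, ?_⟩
  rw [← h2, Finset.card_image_of_injOn (hx.mono (by exact_mod_cast h1'))]

/-- PIECE I. -/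
theorem indep_or {V : Type*} [DecidableEq V] (H : Finset V → Prop) (s l m : ℕ) (hs : 4 ≤ s)
    (hl : 1 ≤ l) (W : Finset V) (hfree : KFree 4 (s + 1) H W)
    (hW : RR l m ≤ W.card) :
    (∃ A ⊆ W, A.card = l ∧ Indep 4 H A) ∨ (∃ A ⊆ W, A.card = m ∧ KFree 4 s H A) := by
  classical
  set T : ℕ := TT l m with hT
  obtain ⟨x, hxW, hxinj, hhom⟩ := erdosRado H T W hW
  let G : Finset ℕ → Prop := fun e => H (insert (x T) (e.image x))
  have hinj : Set.InjOn x (Finset.range (T + 1) : Finset ℕ) := by
    intro i hi j hj hij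
    have hi' := Finset.mem_range.1 (Finset.mem_coe.1 hi)
    have hj' := Finset.mem_range.1 (Finset.mem_coe.1 hj)
    exact hxinj i (by omega) j (by omega) hij
  have hinjOf : ∀ A : Finset ℕ, A ⊆ Finset.range (T + 1) → Set.InjOn x A := fun A hA =>
    hinj.mono (by exact_mod_cast hA)
  have hrange : ∀ A : Finset ℕ, A ⊆ Finset.range T → A ⊆ Finset.range (T + 1) := fun A hA =>
    hA.trans (Finset.range_subset_range.2 (Nat.le_succ T))
  have hsubW : ∀ A : Finset ℕ, A ⊆ Finset.range T → A.image x ⊆ W := by
    intro A hA y hy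
    obtain ⟨i, hi, rfl⟩ := Finset.mem_image.1 hy
    exact hxW i (Finset.mem_range.1 (hA hi)).le
  have hom3 : ∀ e3 : Finset ℕ, e3.card = 3 → ∀ d ≤ T, (∀ i ∈ e3, i < d) →
      (H (insert (x d) (e3.image x)) ↔ G e3) := by
    intro e3 he3 d hd hlt
    obtain ⟨a, b, c, hab, hbc, rfl⟩ := sorted_three e3 he3
    have h := hhom a b c d hab hbc (hlt c (by simp)) hd
    have h1 : ∀ y : V, insert y (Finset.image x ({a, b, c} : Finset ℕ)) =
        ({x a, x b, x c, y} : Finset V) := by
      intro y
      ext w
      simp only [Finset.mem_insert, Finset.mem_image, Finset.mem_singleton]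
      constructor
      · rintro (h2 | ⟨i, (rfl | rfl | rfl), rfl⟩) <;> tauto
      · rintro (rfl | rfl | rfl | rfl)
        · exact Or.inr ⟨a, by tauto, rfl⟩
        · exact Or.inr ⟨b, by tauto, rfl⟩
        · exact Or.inr ⟨c, by tauto, rfl⟩
        · exact Or.inl rfl
    show H (insert (x d) (Finset.image x ({a, b, c} : Finset ℕ))) ↔
      H (insert (x T) (Finset.image x ({a, b, c} : Finset ℕ)))
    rw [h1, h1]
    exact h
  have hom4 : ∀ e4 : Finset ℕ, e4.card = 4 → e4 ⊆ Finset.range T → ∃ e3 ⊆ e4, e3.card = 3 ∧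
      (H (e4.image x) ↔ G e3) := by
    intro e4 he4 hsub
    have hne : e4.Nonempty := Finset.card_pos.1 (by omega)
    set d := e4.max' hne with hd
    have hdm : d ∈ e4 := e4.max'_mem hne
    have hcard : (e4.erase d).card = 3 := by rw [Finset.card_erase_of_mem hdm, he4]
    refine ⟨e4.erase d, Finset.erase_subset _ _, hcard, ?_⟩
    have h1 := hom3 (e4.erase d) hcard d (Finset.mem_range.1 (hsub hdm)).le (by
      intro i hi
      exact lt_of_le_of_ne (e4.le_max' i (Finset.mem_of_mem_erase hi))
        (Finset.ne_of_mem_erase hi))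
    rw [← h1, ← Finset.image_insert, Finset.insert_erase hdm]
  have hTcard : (4 * l) ^ (l * (m + 1)) ≤ (Finset.range T).card := by
    rw [Finset.card_range, hT, TT]
  rcases process G l m hl (Finset.range T) hTcard with ⟨A, hAsub, hAc, hAind⟩ |
    ⟨v, hv, A, hAsub, hAc, hvA, hGv⟩
  · left
    refine ⟨A.image x, hsubW A hAsub, ?_, ?_⟩
    · rw [Finset.card_image_of_injOn (hinjOf A (hrange A hAsub)), hAc]
    · intro e he hec hHe
      obtain ⟨e', he'A, he'x, he'c⟩ := exists_preimage x A (hinjOf A (hrange A hAsub)) e he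
      obtain ⟨e3, he3, he3c, hiff⟩ := hom4 e' (by omega) (he'A.trans hAsub)
      rw [he'x] at hiff
      exact hAind e3 (he3.trans he'A) he3c (hiff.1 hHe)
  · right
    refine ⟨A.image x, hsubW A hAsub, ?_, ?_⟩
    · rw [Finset.card_image_of_injOn (hinjOf A (hrange A hAsub)), hAc]
    · intro Q hQ hQc hQcl
      obtain ⟨Q0, hQ0A, hQ0x, hQ0c⟩ := exists_preimage x A (hinjOf A (hrange A hAsub)) Q hQ
      have hne : Q0.Nonempty := Finset.card_pos.1 (by omega)
      set z := Q0.max' hne with hz
      have hzm : z ∈ Q0 := Q0.max'_mem hne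
      set Q' := Q0.erase z with hQ'
      have hQ'A : Q' ⊆ A := (Finset.erase_subset _ _).trans hQ0A
      have hQ'c : Q'.card = s - 1 := by rw [hQ', Finset.card_erase_of_mem hzm]; omega
      set Q1 := insert v Q' with hQ1
      have hvQ' : v ∉ Q' := fun h => hvA (hQ'A h)
      have hQ1c : Q1.card = s := by rw [hQ1, Finset.card_insert_of_notMem hvQ', hQ'c]; omega
      have hQ1T : Q1 ⊆ Finset.range T := by
        intro i hi
        rcases Finset.mem_insert.1 hi with rfl | h
        · exact hv
        · exact hAsub (hQ'A h)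
      -- all triples of Q1 are G-edges
      have hG : ∀ e3 ⊆ Q1, e3.card = 3 → G e3 := by
        intro e3 he3 he3c
        by_cases hve : v ∈ e3
        · have hc2 : (e3.erase v).card = 2 := by rw [Finset.card_erase_of_mem hve, he3c]
          obtain ⟨p, q, hpq, hpq2⟩ := Finset.card_eq_two.1 hc2
          have hsub : e3.erase v ⊆ A := by
            intro i hi
            have h1 := Finset.mem_of_mem_erase hi
            have h2 := Finset.ne_of_mem_erase hi
            rcases Finset.mem_insert.1 (he3 h1) with h3 | h3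
            · exact absurd h3 h2
            · exact hQ'A h3
          have hp : p ∈ A := hsub (by rw [hpq2]; simp)
          have hq : q ∈ A := hsub (by rw [hpq2]; simp)
          have h4 := hGv p hp q hq hpq
          rw [← Finset.insert_erase hve, hpq2]
          exact h4
        · have he3Q' : e3 ⊆ Q' := by
            intro i hi
            rcases Finset.mem_insert.1 (he3 hi) with h3 | h3
            · exact absurd (h3 ▸ hi) hve
            · exact h3
          rw [← hom3 e3 he3c z (Finset.mem_range.1 (hAsub (hQ0A hzm))).le (by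
            intro i hi
            exact lt_of_le_of_ne (Q0.le_max' i (Finset.mem_of_mem_erase (he3Q' hi)))
              (Finset.ne_of_mem_erase (he3Q' hi)))]
          rw [← Finset.image_insert]
          have hsub : insert z e3 ⊆ Q0 := by
            intro i hi
            rcases Finset.mem_insert.1 hi with rfl | h
            · exact hzm
            · exact Finset.mem_of_mem_erase (he3Q' h)
          refine hQcl _ ?_ ?_
          · rw [← hQ0x]
            exact Finset.image_subset_image hsub
          · rw [Finset.card_image_of_injOn (hinjOf _ ((hsub.trans hQ0A).trans (hrange A hAsub))),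
              Finset.card_insert_of_notMem, he3c]
            intro h
            exact (Finset.ne_of_mem_erase (he3Q' h)) rfl
      -- the big clique
      have hxT : x T ∉ Q1.image x := by
        intro h
        obtain ⟨i, hi, hi2⟩ := Finset.mem_image.1 h
        have h3 := Finset.mem_range.1 (hQ1T hi)
        have h4 := hxinj i h3.le T le_rfl hi2
        omega
      refine hfree (insert (x T) (Q1.image x)) ?_ ?_ ?_
      · intro y hy
        rcases Finset.mem_insert.1 hy with rfl | h
        · exact hxW T le_rfl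
        · exact hsubW Q1 hQ1T h
      · rw [Finset.card_insert_of_notMem hxT,
          Finset.card_image_of_injOn (hinjOf Q1 (hrange Q1 hQ1T)), hQ1c]
      · intro e he hec
        by_cases hTe : x T ∈ e
        · have hsub : e.erase (x T) ⊆ Q1.image x := by
            intro i hi
            rcases Finset.mem_insert.1 (he (Finset.mem_of_mem_erase hi)) with h3 | h3
            · exact absurd h3 (Finset.ne_of_mem_erase hi)
            · exact h3
          obtain ⟨e3, he3, he3x, he3c⟩ :=
            exists_preimage x Q1 (hinjOf Q1 (hrange Q1 hQ1T)) _ hsub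
          rw [Finset.card_erase_of_mem hTe, hec] at he3c
          have h5 := hG e3 he3 he3c
          have h6 : insert (x T) (e3.image x) = e := by
            rw [he3x, Finset.insert_erase hTe]
          exact h6 ▸ h5
        · have hsub : e ⊆ Q1.image x := by
            intro i hi
            rcases Finset.mem_insert.1 (he hi) with h3 | h3
            · exact absurd (h3 ▸ hi) hTe
            · exact h3
          obtain ⟨e4, he4, he4x, he4c⟩ :=
            exists_preimage x Q1 (hinjOf Q1 (hrange Q1 hQ1T)) _ hsub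
          obtain ⟨e3, he3, he3c, hiff⟩ := hom4 e4 (by omega) (he4.trans hQ1T)
          rw [he4x] at hiff
          exact hiff.2 (hG e3 (he3.trans he4) he3c)

/-- PIECE N1. -/
theorem NZ_card {V : Type*} [DecidableEq V] (H : Finset V → Prop) (l j : ℕ) (A : Finset V)
    (h : NZ H l j A) : A.card = l ^ j := by
  induction j generalizing A with
  | zero => simpa [NZ] using h
  | succ j ih =>
    obtain ⟨τ, rfl, hd, hτ, -⟩ := h
    rw [Finset.card_biUnion (fun a _ b _ hab => hd a b hab)]
    rw [Finset.sum_congr rfl (fun a _ => ih (τ a) (hτ a))]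
    simp [pow_succ, mul_comm]

/-- PIECE N2. -/
theorem NZ_clique {V : Type*} [DecidableEq V] (H : Finset V → Prop) (l j : ℕ) (A : Finset V)
    (h : NZ H l j A) (Q : Finset V) (hQ : Q ⊆ A) (hc : Clique 4 H Q) : Q.card ≤ 3 ^ j := by
  induction j generalizing A Q with
  | zero =>
    have h1 : A.card = 1 := by simpa [NZ] using h
    have := Finset.card_le_card hQ
    simp; omega
  | succ j ih =>
    obtain ⟨τ, rfl, hd, hτ, hH⟩ := h
    set I : Finset (Fin l) := univ.filter (fun a => (Q ∩ τ a).Nonempty) with hI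
    have hI3 : I.card ≤ 3 := by
      by_contra hlt
      push Not at hlt
      obtain ⟨J, hJI, hJ4⟩ := Finset.exists_subset_card_eq (show 4 ≤ I.card by omega)
      obtain ⟨a, b, c, d, hab, hac, had, hbc, hbd, hcd, rfl⟩ := Finset.card_eq_four.1 hJ4
      have hl : 0 < l := a.pos
      have hne : ∀ e, (τ e).Nonempty := by
        intro e
        rw [← Finset.card_pos, NZ_card H l j (τ e) (hτ e)]
        exact pow_pos hl j
      have hx : ∀ e : Fin l, ∃ v, v ∈ τ e ∧ (e ∈ I → v ∈ Q) := by
        intro e
        by_cases he : e ∈ I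
        · have : (Q ∩ τ e).Nonempty := by simpa [hI] using he
          obtain ⟨v, hv⟩ := this
          rw [Finset.mem_inter] at hv
          exact ⟨v, hv.2, fun _ => hv.1⟩
        · obtain ⟨v, hv⟩ := hne e
          exact ⟨v, hv, fun h => absurd h he⟩
      choose x hxτ hxQ using hx
      have hinj : ∀ e f, e ≠ f → x e ≠ x f := by
        intro e f hef heq
        exact (Finset.disjoint_left.1 (hd e f hef)) (hxτ e) (heq ▸ hxτ f)
      refine hH x hxτ a b c d hab hac had hbc hbd hcd (hc _ ?_ ?_)
      · intro v hv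
        simp only [Finset.mem_insert, Finset.mem_singleton] at hv
        rcases hv with rfl | rfl | rfl | rfl
        · exact hxQ a (hJI (by simp))
        · exact hxQ b (hJI (by simp))
        · exact hxQ c (hJI (by simp))
        · exact hxQ d (hJI (by simp))
      · exact Finset.card_eq_four.2 ⟨x a, x b, x c, x d, hinj a b hab, hinj a c hac, hinj a d had,
          hinj b c hbc, hinj b d hbd, hinj c d hcd, rfl⟩
    have hQsub : Q ⊆ I.biUnion (fun a => Q ∩ τ a) := by
      intro v hv
      have := hQ hv
      rw [Finset.mem_biUnion] at this ⊢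
      obtain ⟨a, -, ha⟩ := this
      have hm : v ∈ Q ∩ τ a := Finset.mem_inter.2 ⟨hv, ha⟩
      exact ⟨a, by simpa [hI] using ⟨v, hm⟩, hm⟩
    calc Q.card ≤ (I.biUnion (fun a => Q ∩ τ a)).card := Finset.card_le_card hQsub
      _ ≤ ∑ a ∈ I, (Q ∩ τ a).card := Finset.card_biUnion_le
      _ ≤ ∑ _a ∈ I, 3 ^ j := by
          refine Finset.sum_le_sum fun a _ => ?_
          refine ih (τ a) (hτ a) (Q ∩ τ a) Finset.inter_subset_right ?_
          intro e he hcard
          exact hc e (he.trans Finset.inter_subset_left) hcard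
      _ = I.card * 3 ^ j := by simp
      _ ≤ 3 * 3 ^ j := Nat.mul_le_mul_right _ hI3
      _ = 3 ^ (j + 1) := by rw [pow_succ]; ring

theorem one_le_TT (l m : ℕ) (hl : 1 ≤ l) : 1 ≤ TT l m := Nat.one_le_pow _ _ (by omega)

theorem lt_RR (l m : ℕ) (hl : 1 ≤ l) : l < RR l m := by
  have h1 : l ≤ TT l m := by
    unfold TT
    calc l ≤ (4 * l) ^ 1 := by rw [pow_one]; omega
      _ ≤ (4 * l) ^ (l * (m + 1)) := Nat.pow_le_pow_right (by omega) (Nat.mul_pos hl (by omega))
  calc l < 2 ^ l := Nat.lt_two_pow_self
    _ ≤ RR l m := Nat.pow_le_pow_right (by norm_num) (by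
        have : 0 ≤ TT l m ^ 3 := Nat.zero_le _
        omega)

theorem le_rho (l m : ℕ) (hl : 1 ≤ l) (j : ℕ) : l ^ j ≤ rho l m j := by
  induction j with
  | zero => simp [rho]
  | succ j ih =>
    have hR : l < RR l m := lt_RR l m hl
    have hρ : 1 ≤ rho l m j := le_trans (Nat.one_le_pow _ _ (by omega)) ih
    have h1 : l ≤ RR l m ^ l := by
      calc l ≤ RR l m := hR.le
        _ = RR l m ^ 1 := (pow_one _).symm
        _ ≤ RR l m ^ l := Nat.pow_le_pow_right (by omega) hl
    calc l ^ (j + 1) = l * l ^ j := by rw [pow_succ]; ring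
      _ ≤ (RR l m ^ l) * rho l m j := Nat.mul_le_mul h1 ih
      _ ≤ (2 * RR l m ^ l * rho l m j) ^ 1 := by
          rw [pow_one, mul_assoc]; omega
      _ ≤ rho l m (j + 1) := by
          show _ ≤ (2 * (RR l m) ^ l * rho l m j) ^ ((2 * l ^ j + 4) ^ l)
          refine Nat.pow_le_pow_right ?_ (Nat.one_le_pow _ _ (by omega))
          have : 0 < RR l m ^ l := pow_pos (by omega) l
          have h3 : 0 < rho l m j := hρ
          positivity

theorem RR_le_rho (l m : ℕ) (hl : 1 ≤ l) (j : ℕ) : RR l m ≤ rho l m (j + 1) := by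
  have hR : l < RR l m := lt_RR l m hl
  have hρ : 1 ≤ rho l m j := le_trans (Nat.one_le_pow _ _ (by omega)) (le_rho l m hl j)
  calc RR l m = RR l m ^ 1 * 1 := by simp
    _ ≤ RR l m ^ l * rho l m j :=
        Nat.mul_le_mul (Nat.pow_le_pow_right (by omega) hl) hρ
    _ ≤ (2 * RR l m ^ l * rho l m j) ^ 1 := by
        rw [pow_one, mul_assoc]; omega
    _ ≤ rho l m (j + 1) := by
        show _ ≤ (2 * (RR l m) ^ l * rho l m j) ^ ((2 * l ^ j + 4) ^ l)
        refine Nat.pow_le_pow_right ?_ (Nat.one_le_pow _ _ (by omega))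
        have : 0 < RR l m ^ l := pow_pos (by omega) l
        have h3 : 0 < rho l m j := hρ
        positivity

/-- transversals with prescribed values at two places -/
theorem exists_transversal {V : Type*} {l : ℕ} (τ : Fin l → Finset V)
    (hne : ∀ e, (τ e).Nonempty) (a b : Fin l) (hab : a ≠ b) (v w : V) (hv : v ∈ τ a)
    (hw : w ∈ τ b) : ∃ x : Fin l → V, (∀ e, x e ∈ τ e) ∧ x a = v ∧ x b = w := by
  classical
  choose y hy using hne
  refine ⟨fun e => if e = a then v else if e = b then w else y e, ?_, ?_, ?_⟩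
  · intro e
    by_cases h1 : e = a
    · subst h1; simpa using hv
    · by_cases h2 : e = b
      · subst h2; simpa [h1] using hw
      · simpa [h1, h2] using hy e
  · simp
  · simp [hab.symm]

/-- PIECE N3. -/
theorem NZ_exists {V : Type*} [DecidableEq V] (H : Finset V → Prop) (l m : ℕ) (hl : 1 ≤ l)
    (V₀ : Finset V)
    (hI : ∀ X ⊆ V₀, RR l m ≤ X.card → ∃ A ⊆ X, A.card = l ∧ Indep 4 H A) (j : ℕ) :
    ∀ X ⊆ V₀, rho l m j ≤ X.card → ∃ A ⊆ X, NZ H l j A := by
  induction j with
  | zero =>
    intro X _ hX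
    have hX' : 0 < X.card := by
      have : rho l m 0 = 1 := rfl
      omega
    obtain ⟨v, hv⟩ := Finset.card_pos.1 hX'
    exact ⟨{v}, by simpa using hv, by simp [NZ]⟩
  | succ j ih =>
    intro X hXV hX
    classical
    have hRX : RR l m ≤ X.card := (RR_le_rho l m hl j).trans hX
    have hR : l < RR l m := lt_RR l m hl
    set Good : (Fin l → V) → Prop := fun x => Function.Injective x ∧
      ∀ a b c d : Fin l, a ≠ b → a ≠ c → a ≠ d → b ≠ c → b ≠ d → c ≠ d →
        ¬ H {x a, x b, x c, x d} with hGood
    -- many good tuples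
    have hsup := supersat (fun A => Indep 4 H A) l (RR l m) hR.le X hRX (by
      intro Y hY hYc
      exact hI Y (hY.trans hXV) (by omega))
    have hcount : ((X.powersetCard l).filter (fun A => Indep 4 H A)).card ≤
        ((Fintype.piFinset (fun _ : Fin l => X)).filter Good).card := by
      refine Finset.card_le_card_of_surjOn (fun x => univ.image x) ?_
      intro A hA
      simp only [Finset.coe_filter, Finset.mem_powersetCard, Set.mem_ofPred_eq] at hA
      obtain ⟨⟨hAX, hAc⟩, hAi⟩ := hA
      have e : Fin l ≃ A := (Finset.equivFinOfCardEq hAc).symm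
      refine ⟨fun i => (e i : V), ?_, ?_⟩
      · simp only [Finset.coe_filter, Fintype.mem_piFinset, Set.mem_ofPred_eq]
        refine ⟨fun i => hAX (e i).2, ?_, ?_⟩
        · intro i i' hii
          exact e.injective (Subtype.ext hii)
        · intro a b c d hab hac had hbc hbd hcd
          have hinj : ∀ i i' : Fin l, i ≠ i' → (e i : V) ≠ (e i' : V) := by
            intro i i' hii heq
            exact hii (e.injective (Subtype.ext heq))
          refine hAi _ ?_ ?_
          · intro v hv
            simp only [Finset.mem_insert, Finset.mem_singleton] at hv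
            rcases hv with rfl | rfl | rfl | rfl
            · exact (e a).2
            · exact (e b).2
            · exact (e c).2
            · exact (e d).2
          · exact Finset.card_eq_four.2 ⟨_, _, _, _, hinj a b hab, hinj a c hac, hinj a d had,
              hinj b c hbc, hinj b d hbd, hinj c d hcd, rfl⟩
      · ext v
        simp only [Finset.mem_image, Finset.mem_univ, true_and]
        constructor
        · rintro ⟨i, rfl⟩
          exact (e i).2
        · intro hv
          refine ⟨e.symm ⟨v, hv⟩, ?_⟩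
          simp
    have hD : 1 ≤ RR l m ^ l := Nat.one_le_pow _ _ (by omega)
    have hD2 : X.card ^ l ≤
        RR l m ^ l * ((Fintype.piFinset (fun _ : Fin l => X)).filter Good).card := by
      calc X.card ^ l ≤ ((X.powersetCard l).filter (fun A => Indep 4 H A)).card * RR l m ^ l := hsup
        _ ≤ ((Fintype.piFinset (fun _ : Fin l => X)).filter Good).card * RR l m ^ l :=
            Nat.mul_le_mul_right _ hcount
        _ = _ := mul_comm _ _
    obtain ⟨τ, hτ, hτG⟩ := blowup (NZ H l j) (l ^ j) (rho l m j) (Nat.one_le_pow _ _ (by omega))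
      (le_rho l m hl j) X (by
        intro Y hY hYc
        obtain ⟨A, hA, hAN⟩ := ih Y (hY.trans hXV) (by omega)
        exact ⟨A, hA, NZ_card H l j A hAN, hAN⟩) l Good (RR l m ^ l) hD hD2 hX
    have hne : ∀ e, (τ e).Nonempty := by
      intro e
      rw [← Finset.card_pos, (hτ e).2.1]
      exact pow_pos hl j
    refine ⟨univ.biUnion τ, ?_, τ, rfl, ?_, fun a => (hτ a).2.2, ?_⟩
    · intro v hv
      rw [Finset.mem_biUnion] at hv
      obtain ⟨a, -, ha⟩ := hv
      exact (hτ a).1 ha
    · intro a b hab
      rw [Finset.disjoint_left]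
      intro v hva hvb
      obtain ⟨x, hx, hxa, hxb⟩ := exists_transversal τ hne a b hab v v hva hvb
      exact hab ((hτG x hx).1 (hxa.trans hxb.symm))
    · intro x hx a b c d hab hac had hbc hbd hcd
      exact (hτG x hx).2 a b c d hab hac had hbc hbd hcd

end MPadd94d
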